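import Pool.Agent.VB.A

/-!
# Measurability of the class of models of a first-order theory
-/

set_option autoImplicit false

namespace Pool.Agent.Helper5

open Set Pool.Agent.Helper6.Str FirstOrder

variable {L : FirstOrder.Language.{0, 0}} [∀ n, IsEmpty (L.Functions n)]

/-- in a relational language terms are variables -/
theorem term_eq_var {α : Type} (t : L.Term α) : ∃ a, t = FirstOrder.Language.Term.var a := by
  cases t with
  | var a => exact ⟨a, rfl⟩
  | func f ts => exact isEmptyElim f

theorem measurableSet_realize [∀ n, Countable (L.Relations n)] {α : Type} {n : ℕ}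
    (φ : L.BoundedFormula α n) (v : α → ℕ) : ∀ xs : Fin n → ℕ,
    MeasurableSet {c : Code L |
      @FirstOrder.Language.BoundedFormula.Realize L ℕ (toStr c) α n φ v xs} := by
  induction φ with
  | falsum => intro xs; exact MeasurableSet.const False
  | equal t₁ t₂ =>
    intro xs
    obtain ⟨a, rfl⟩ := term_eq_var t₁
    obtain ⟨b, rfl⟩ := term_eq_var t₂
    exact MeasurableSet.const (Sum.elim v xs a = Sum.elim v xs b)
  | rel R ts =>
    intro xs
    choose a ha using fun i => term_eq_var (ts i)
    have : {c : Code L | @FirstOrder.Language.BoundedFormula.Realize L ℕ (toStr c) α _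
        (FirstOrder.Language.BoundedFormula.rel R ts) v xs} =
        {c : Code L | (toStr c).RelMap R (fun i => Sum.elim v xs (a i))} := by
      ext c
      show (toStr c).RelMap R (fun i => @FirstOrder.Language.Term.realize L ℕ (toStr c) _
        (Sum.elim v xs) (ts i)) ↔ _
      have h : (fun i => @FirstOrder.Language.Term.realize L ℕ (toStr c) _
        (Sum.elim v xs) (ts i)) = fun i => Sum.elim v xs (a i) := by
        funext i
        rw [ha i]
        rfl
      rw [h]
      rfl
    rw [this]
    exact measurableSet_relMap R _
  | imp φ ψ ih1 ih2 =>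
    intro xs
    have : {c : Code L | @FirstOrder.Language.BoundedFormula.Realize L ℕ (toStr c) α _
        (φ.imp ψ) v xs} =
        {c : Code L | @FirstOrder.Language.BoundedFormula.Realize L ℕ (toStr c) α _ φ v xs}ᶜ ∪
        {c : Code L | @FirstOrder.Language.BoundedFormula.Realize L ℕ (toStr c) α _ ψ v xs} := by
      ext c
      show (_ → _) ↔ (¬ _ ∨ _)
      exact imp_iff_not_or
    rw [this]
    exact (ih1 xs).compl.union (ih2 xs)
  | all φ ih =>
    intro xs
    have : {c : Code L | @FirstOrder.Language.BoundedFormula.Realize L ℕ (toStr c) α _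
        φ.all v xs} = ⋂ a : ℕ, {c : Code L |
          @FirstOrder.Language.BoundedFormula.Realize L ℕ (toStr c) α _ φ v (Fin.snoc xs a)} := by
      ext c
      simp only [mem_iInter]
      rfl
    rw [this]
    exact MeasurableSet.iInter fun a => ih _

theorem measurableSet_model (hc : Countable L.Symbols) (T : L.Theory) :
    MeasurableSet {c : Code L | @FirstOrder.Language.Theory.Model L ℕ (toStr c) T} := by
  have hcr : ∀ n, Countable (L.Relations n) := countable_relations hc
  have hcs : Countable L.Sentence := inferInstanceAs (Countable (L.Formula Empty))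
  have : {c : Code L | @FirstOrder.Language.Theory.Model L ℕ (toStr c) T} =
      ⋂ σ ∈ T, {c : Code L | @FirstOrder.Language.Sentence.Realize L ℕ (toStr c) σ} := by
    ext c
    simp only [mem_iInter, mem_ofPred_eq]
    exact @FirstOrder.Language.Theory.model_iff L ℕ (toStr c) T
  rw [this]
  exact MeasurableSet.biInter (Set.to_countable T) fun σ _ => measurableSet_realize σ _ _

end Pool.Agent.Helper5
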